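import Mathlib

/-! Simplification of positions with Left and Right terminals is not confluent (helper135). -/

namespace Pool.Agent.Results.MP_31d4f2_co.NotConfluent

/-- Positions: the terminals `*L` and `*R`, and the non-terminal positions, given by a finite
nonempty family of options. -/
inductive Pos : Type 1
  | starL : Pos
  | starR : Pos
  | node (ι : Type) (hf : Finite ι) (hn : Nonempty ι) (f : ι → Pos) : Pos

/-- Sum of a terminal (`*R` if `b` is true, `*L` otherwise) and a position. -/
def addT (b : Bool) : Pos → Pos
  | .starL => if b then .starR else .starL
  | .starR => if b then .starL else .starR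
  | .node κ hf hn g => .node κ hf hn fun j => addT b (g j)

/-- Sum of a non-terminal position and a position; `F i` adds the option `i` of the former. -/
def addN (ι : Type) (hf : Finite ι) (hn : Nonempty ι) (F : ι → Pos → Pos) : Pos → Pos
  | .starL => .node ι hf hn fun i => F i .starL
  | .starR => .node ι hf hn fun i => F i .starR
  | .node κ hf' hn' g => .node (ι ⊕ κ) inferInstance inferInstance
      (Sum.elim (fun i => F i (.node κ hf' hn' g)) fun j => addN ι hf hn F (g j))

/-- The disjunctive sum. -/
def add : Pos → Pos → Pos
  | .starL => addT false
  | .starR => addT true
  | .node ι hf hn f => addN ι hf hn fun i => add (f i)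

/-- Left wins `G` when Left (`true`) or Right (`false`) is to move. -/
def leftWins : Pos → Bool → Prop
  | .starL, _ => True
  | .starR, _ => False
  | .node _ _ _ f, true => ∃ i, leftWins (f i) false
  | .node _ _ _ f, false => ∀ i, leftWins (f i) true

/-- The four outcome classes. -/
inductive Outcome
  | L | R | N | P

open Classical in
/-- The outcome of a position. -/
noncomputable def outcome (G : Pos) : Outcome :=
  if leftWins G true then (if leftWins G false then .L else .N)
  else (if leftWins G false then .P else .R)

/-- Equivalence of positions. -/
def Equivalent (G H : Pos) : Prop := ∀ X : Pos, outcome (add G X) = outcome (add H X)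

/-- Isomorphism of positions. -/
def Iso : Pos → Pos → Prop
  | .starL, .starL => True
  | .starR, .starR => True
  | .node _ _ _ f, .node _ _ _ g => (∀ i, ∃ j, Iso (f i) (g j)) ∧ ∀ j, ∃ i, Iso (f i) (g j)
  | _, _ => False

/-- The position `{G}`. -/
def single (G : Pos) : Pos := .node Unit inferInstance inferInstance fun _ => G

/-- Some option of `G` is equivalent to `H`. -/
def HasOption : Pos → Pos → Prop
  | .node _ _ _ f, H => ∃ i, Equivalent (f i) H
  | _, _ => False

/-- One simplification step: (S1) for `*L` and for `*R`, (S2), and a step inside an option. -/
inductive Step : Pos → Pos → Prop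
  | s1L {ι : Type} {hf : Finite ι} {hn : Nonempty ι} {f : ι → Pos} (i : ι)
      (h1 : Equivalent (f i) (single .starL)) (h2 : ∀ j, HasOption (f j) .starL) :
      Step (.node ι hf hn f) .starL
  | s1R {ι : Type} {hf : Finite ι} {hn : Nonempty ι} {f : ι → Pos} (i : ι)
      (h1 : Equivalent (f i) (single .starR)) (h2 : ∀ j, HasOption (f j) .starR) :
      Step (.node ι hf hn f) .starR
  | s2 {ι : Type} {hf : Finite ι} {hn : Nonempty ι} {f : ι → Pos} (i : ι) (h1 : ∃ j, j ≠ i)
      (h2 : ∀ j, j ≠ i → HasOption (f j) (single (f i))) :
      Step (.node ι hf hn f) (single (f i))
  | inside {ι : Type} {hf : Finite ι} {hn : Nonempty ι} {f g : ι → Pos} (i : ι)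
      (h1 : Step (f i) (g i)) (h2 : ∀ j, j ≠ i → g j = f j) :
      Step (.node ι hf hn f) (.node ι hf hn g)

/-- No step applies. -/
def Reduced (G : Pos) : Prop := ∀ G', ¬ Step G G'

/-! ### Equations for sums -/

theorem equivalent_iff {G H : Pos} : Equivalent G H ↔
    ∀ X b, leftWins (add G X) b ↔ leftWins (add H X) b := by
  constructor
  · intro h X b
    have hX := h X
    simp only [outcome] at hX
    by_cases h1 : leftWins (add G X) true <;> by_cases h2 : leftWins (add G X) false <;>
      by_cases h3 : leftWins (add H X) true <;> by_cases h4 : leftWins (add H X) false <;>
      simp [h1, h2, h3, h4] at hX <;> cases b <;> simp [h1, h2, h3, h4]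
  · intro h X
    simp only [outcome]
    rw [h X true, h X false]

theorem Equivalent.rfl' (G : Pos) : Equivalent G G := fun _ => rfl

theorem Equivalent.symm' {G H : Pos} (h : Equivalent G H) : Equivalent H G := fun X => (h X).symm

theorem Equivalent.trans' {G H K : Pos} (h : Equivalent G H) (h' : Equivalent H K) :
    Equivalent G K := fun X => (h X).trans (h' X)

/-- Left to move at `G + X`, `G` non-terminal. -/
theorem win_add_true {ι : Type} {hf : Finite ι} {hn : Nonempty ι} {f : ι → Pos} (X : Pos) :
    leftWins (add (.node ι hf hn f) X) true ↔ (∃ i, leftWins (add (f i) X) false) ∨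
      (match X with
        | .node _ _ _ g => ∃ j, leftWins (add (.node ι hf hn f) (g j)) false
        | _ => False) := by
  cases X with
  | starL => simp [add, addN, leftWins]
  | starR => simp [add, addN, leftWins]
  | node κ hf' hn' g => simp [add, addN, leftWins]

/-- Right to move at `G + X`, `G` non-terminal. -/
theorem win_add_false {ι : Type} {hf : Finite ι} {hn : Nonempty ι} {f : ι → Pos} (X : Pos) :
    leftWins (add (.node ι hf hn f) X) false ↔ (∀ i, leftWins (add (f i) X) true) ∧
      (match X with
        | .node _ _ _ g => ∀ j, leftWins (add (.node ι hf hn f) (g j)) true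
        | _ => True) := by
  cases X with
  | starL => simp [add, addN, leftWins]
  | starR => simp [add, addN, leftWins]
  | node κ hf' hn' g => simp [add, addN, leftWins]

/-- `{G} ≡ {H}` if `G ≡ H`. -/
theorem single_congr {G H : Pos} (h : Equivalent G H) : Equivalent (single G) (single H) := by
  rw [equivalent_iff] at h ⊢
  intro X
  induction X with
  | starL =>
    intro b
    cases b
    · simp only [single, win_add_false, h]
    · simp only [single, win_add_true, h]
  | starR =>
    intro b
    cases b
    · simp only [single, win_add_false, h]
    · simp only [single, win_add_true, h]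
  | node κ hf' hn' g ih =>
    intro b
    simp only [single] at ih
    cases b
    · simp only [single, win_add_false, h]
      exact and_congr Iff.rfl (forall_congr' fun j => ih j true)
    · simp only [single, win_add_true, h]
      exact or_congr Iff.rfl (exists_congr fun j => ih j false)

/-- `{*L, *R}`. -/
def V0 : Pos := .node Bool inferInstance inferInstance fun b => if b then .starL else .starR

/-- `{*L, *R, {C}}`. -/
def ext (C : Pos) : Pos := .node (Option Bool) inferInstance inferInstance fun o =>
  match o with
  | none => single C
  | some true => .starL
  | some false => .starR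

/-- Reversible options: `{*L, *R, {C}} ≡ {*L, *R}` if `C ≡ {*L, *R}`. -/
theorem ext_equiv {C : Pos} (hC : Equivalent C V0) : Equivalent (ext C) V0 := by
  rw [equivalent_iff] at hC ⊢
  have main : ∀ X,
      ((match X with
        | .node _ _ _ g => ∃ j, leftWins (add (ext C) (g j)) false
        | _ => False) ↔
        (match X with
        | .node _ _ _ g => ∃ j, leftWins (add V0 (g j)) false
        | _ => False)) →
      ((match X with
        | .node _ _ _ g => ∀ j, leftWins (add (ext C) (g j)) true
        | _ => True) ↔
        (match X with
        | .node _ _ _ g => ∀ j, leftWins (add V0 (g j)) true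
        | _ => True)) →
      ∀ b, leftWins (add (ext C) X) b ↔ leftWins (add V0 X) b := by
    intro X hT hF b
    cases b
    · constructor
      · intro h
        rw [ext, win_add_false] at h
        rw [V0, win_add_false]
        refine ⟨fun i => h.1 (some i) |> fun h' => ?_, hF.1 h.2⟩
        cases i <;> simpa using h'
      · intro h
        have h0 := h
        rw [V0, win_add_false] at h
        rw [ext, win_add_false]
        refine ⟨fun o => ?_, hF.2 h.2⟩
        match o with
        | none =>
          simp only [single]
          rw [win_add_true]
          exact Or.inl ⟨(), (hC X false).2 h0⟩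
        | some true => simpa using h.1 true
        | some false => simpa using h.1 false
    · constructor
      · intro h
        rw [ext, win_add_true] at h
        rcases h with ⟨o, ho⟩ | h
        · match o, ho with
          | none, ho =>
            simp only [single] at ho
            rw [win_add_false] at ho
            exact (hC X true).1 (ho.1 ())
          | some true, ho =>
            rw [V0, win_add_true]
            exact Or.inl ⟨true, by simpa using ho⟩
          | some false, ho =>
            rw [V0, win_add_true]
            exact Or.inl ⟨false, by simpa using ho⟩
        · rw [V0, win_add_true]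
          exact Or.inr (hT.1 h)
      · intro h
        rw [V0, win_add_true] at h
        rw [ext, win_add_true]
        rcases h with ⟨i, hi⟩ | h
        · left
          cases i
          · exact ⟨some false, by simpa using hi⟩
          · exact ⟨some true, by simpa using hi⟩
        · exact Or.inr (hT.2 h)
  intro X
  induction X with
  | starL => exact main _ Iff.rfl Iff.rfl
  | starR => exact main _ Iff.rfl Iff.rfl
  | node κ hf' hn' g ih =>
    exact main _ (exists_congr fun j => ih j false) (forall_congr' fun j => ih j true)

/-- `A = {*L, *R, {V0}}`. -/
def A : Pos := ext V0

/-- `B = {*L, *R, {A}}`. -/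
def B : Pos := ext A

theorem A_equiv : Equivalent A V0 := ext_equiv (Equivalent.rfl' _)

theorem B_equiv : Equivalent B V0 := ext_equiv A_equiv

/-- `{A, B}`. -/
def G : Pos := .node Bool inferInstance inferInstance fun b => if b then A else B

theorem step_A : Step G (single A) := by
  have : Step G (single ((fun b : Bool => if b then A else B) true)) := by
    refine Step.s2 (f := fun b : Bool => if b then A else B) true ⟨false, by simp⟩ ?_
    intro j hj
    have : j = false := by simpa using hj
    subst this
    exact ⟨none, Equivalent.rfl' _⟩
  exact this

theorem step_B : Step G (single B) := by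
  have : Step G (single ((fun b : Bool => if b then A else B) false)) := by
    refine Step.s2 (f := fun b : Bool => if b then A else B) false ⟨true, by simp⟩ ?_
    intro j hj
    have : j = true := by simpa using hj
    subst this
    exact ⟨none, single_congr B_equiv.symm'⟩
  exact this

/-- The outcome of a position equivalent to `{*L, *R}` is not that of `{*L}` or `{*R}`. -/
theorem not_single {C : Pos} (hC : Equivalent C V0) :
    ¬ Equivalent C (single .starL) ∧ ¬ Equivalent C (single .starR) := by
  have hV : ∀ b, leftWins (add V0 .starL) b ↔ (b = true) := by
    intro b
    cases b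
    · simp [V0, add, addN, leftWins, addT]
    · simp [V0, add, addN, leftWins, addT]
  rw [equivalent_iff] at hC
  constructor
  · intro h
    rw [equivalent_iff] at h
    have h1 := (h .starL false).symm.trans ((hC .starL false).trans (hV false))
    simp [single, add, addN, leftWins, addT] at h1
  · intro h
    rw [equivalent_iff] at h
    have h1 := (h .starL true).symm.trans ((hC .starL true).trans (hV true))
    simp [single, add, addN, leftWins, addT] at h1

theorem reduced_starL : Reduced .starL := by
  intro G' h
  cases h

theorem reduced_starR : Reduced .starR := by
  intro G' h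
  cases h

theorem reduced_single {C : Pos} (hC : Equivalent C V0) (hr : Reduced C) : Reduced (single C) := by
  intro G' h
  cases h with
  | s1L i h1 h2 => exact (not_single hC).1 h1
  | s1R i h1 h2 => exact (not_single hC).2 h1
  | s2 i h1 h2 =>
    obtain ⟨j, hj⟩ := h1
    exact hj rfl
  | inside i h1 h2 => exact hr _ h1

theorem reduced_V0 : Reduced V0 := by
  intro G' h
  cases h with
  | s1L i h1 h2 => exact h2 true
  | s1R i h1 h2 => exact h2 true
  | s2 i h1 h2 =>
    cases i
    · exact h2 true (by simp)
    · exact h2 false (by simp)
  | inside i h1 h2 =>
    cases i
    · exact reduced_starR _ h1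
    · exact reduced_starL _ h1

theorem reduced_ext {C : Pos} (hC : Equivalent C V0) (hr : Reduced C) : Reduced (ext C) := by
  intro G' h
  cases h with
  | s1L i h1 h2 => exact h2 (some true)
  | s1R i h1 h2 => exact h2 (some true)
  | s2 i h1 h2 =>
    match i, h1, h2 with
    | none, _, h2 => exact h2 (some true) (by simp)
    | some true, _, h2 => exact h2 (some false) (by simp)
    | some false, _, h2 => exact h2 (some true) (by simp)
  | inside i h1 h2 =>
    match i, h1 with
    | none, h1 => exact reduced_single hC hr _ h1
    | some true, h1 => exact reduced_starL _ h1
    | some false, h1 => exact reduced_starR _ h1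

theorem not_iso : ¬ Iso (single A) (single B) := by
  intro h
  obtain ⟨_, h1⟩ := h.1 ()
  -- `h1 : Iso A B`; the option `{A}` of `B` is isomorphic to an option of `A`
  obtain ⟨i, hi⟩ := h1.2 none
  match i, hi with
  | none, hi =>
    obtain ⟨_, h2⟩ := hi.1 ()
    -- `h2 : Iso V0 A`; the option `{V0}` of `A` is isomorphic to an option of `V0`
    obtain ⟨j, hj⟩ := h2.2 none
    cases j
    · exact hj
    · exact hj
  | some true, hi => exact hi
  | some false, hi => exact hi

/-- Exhaustive simplification does not produce a unique position: a position `G` with two
sequences of simplification steps that end in non-isomorphic reduced positions. -/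
theorem result : ∃ G P Q : Pos, Relation.ReflTransGen Step G P ∧ Relation.ReflTransGen Step G Q ∧
    Reduced P ∧ Reduced Q ∧ ¬ Iso P Q :=
  ⟨G, single A, single B, .single step_A, .single step_B,
    reduced_single A_equiv (reduced_ext (Equivalent.rfl' _) reduced_V0),
    reduced_single B_equiv (reduced_ext A_equiv (reduced_ext (Equivalent.rfl' _) reduced_V0)),
    not_iso⟩

end Pool.Agent.Results.MP_31d4f2_co.NotConfluent
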